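import Pool.Agent.U360.PO.Law

/-!
# MP_1322f0_nt: dependence of Popescu's conjecture on `S`; one set `S` decides it for all `S`, `r`

Let `H / F` be a finite abelian extension of number fields with group `G`. `RubinData F H G` are the
data of Q1: `S` (the archimedean places and a finite set of prime ideals which contains the ramified
ones), places `w_1, ..., w_r` over all places of `S` which split completely, `#S ≥ r + 1`, the
Frobenius automorphisms, the functions `L_S(χ, s)`. `PopescuUpTo N D` says that `N w_H η'` belongs to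
`Λ` for the data `D`; `PopescuUpTo 1 D` is Q1 for `D` (for `r = 0` it is Stark's conjecture over `ℚ`).

Let `S₁` and `S₂` be the sets of `D₁` and `D₂`, and let `S₂` contain the elements of `S₁` which do not
split completely in `H`. There are no conditions on the elements which split completely, and `r₁`
and `r₂` are arbitrary, `0 < r₁`. `classFactor H S₁ S₂` is the index of the group generated by the
classes of the prime ideals of `𝓞 H` over `S₁` and over the elements of `S₂` which do not split
completely, in the group generated by the classes of the prime ideals over `S₁` and `S₂`.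

* If `N w_H η'` belongs to `Λ` for `D₁`, then `c N w_H η'` belongs to `Λ` for `D₂`,
  `c = classFactor H S₁ S₂`. The number `c` divides the class number of `H`. It is one if the classes
  of the prime ideals over `S₂` belong to the first group. So Q1 for `S`, `0 < r`, depends only on the
  elements of `S` which do not split completely and on the group of the classes of the prime ideals
  over `S`.
* There is a set `V₀` of prime ideals which split completely in `H`, `2 ^ #V₀ ≤ 2 h_H`, such that
  for all data with set `S` there are data with the set `S₁ = S ∪ V₀` and `0 < r₁` such that Q1 for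
  `S₁` is equivalent to Q1 for all `S'` (all `r'`, `w_i`) which contain the elements of `S` which do
  not split completely; Rubin's conjecture for `S₁` and finitely many `T = {v}` implies it; if the
  unramified prime ideals in `S` split completely, it is Q1 for `H / F`, for all `S`, `r`, `w_i`.
-/

set_option autoImplicit false

open NumberField IsDedekindDomain

noncomputable section

namespace Pool.Agent.Results.MP_1322f0_nt.OneS

open Pool.Agent.K3h30.RS Pool.Agent.U360.RS Pool.Agent.U360.AS Pool.Agent.U360.PO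

/-- Dependence of Popescu's conjecture on `S`; one `S₁` decides. -/
theorem result (F H G : Type) [Field F] [NumberField F] [Field H] [NumberField H] [Algebra F H]
    [CommGroup G] [Finite G] [MulSemiringAction G H] [IsGaloisGroup G F H] :
    (∀ (N : ℕ) (D₁ D₂ : RubinData F H G), 0 < D₁.r → nonSplit H D₁.S ⊆ nonSplit H D₂.S →
      PopescuUpTo N D₁ → PopescuUpTo (N * classFactor H D₁.S D₂.S) D₂) ∧
    (∀ S₁ S₂ : Finset (HeightOneSpectrum (𝓞 F)),
      classFactor H S₁ S₂ ∣ NumberField.classNumber H ∧
      (clsGroup H (S₂ : Set (HeightOneSpectrum (𝓞 F))) ≤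
        clsGroup H ((S₁ : Set (HeightOneSpectrum (𝓞 F))) ∪ nonSplit H S₂) →
        classFactor H S₁ S₂ = 1)) ∧
    ∃ V₀ : Finset (HeightOneSpectrum (𝓞 F)), (∀ v ∈ V₀, SplitsIn H v) ∧
      2 ^ V₀.card ≤ 2 * NumberField.classNumber H ∧
      ∀ D : RubinData F H G, ∃ D₁ : RubinData F H G,
        (∀ v, v ∈ D₁.S ↔ v ∈ D.S ∨ v ∈ V₀) ∧ 0 < D₁.r ∧
        (PopescuUpTo 1 D₁ ↔
          ∀ D' : RubinData F H G, nonSplit H D.S ⊆ nonSplit H D'.S → PopescuUpTo 1 D') ∧
        (∀ E : Finset (HeightOneSpectrum (𝓞 F)), ∃ V : Finset (HeightOneSpectrum (𝓞 F)),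
          Disjoint E V ∧ (∀ v ∈ V, D₁.Allowed {v}) ∧ ((∀ v ∈ V, D₁.Rubin {v}) →
            ∀ D' : RubinData F H G, nonSplit H D.S ⊆ nonSplit H D'.S → PopescuUpTo 1 D')) ∧
        ((∀ v ∈ D.S, Squarefree (v.asIdeal.map (algebraMap (𝓞 F) (𝓞 H))) → SplitsIn H v) →
          (PopescuUpTo 1 D₁ ↔ ∀ D' : RubinData F H G, PopescuUpTo 1 D')) := by
  classical
  refine ⟨fun N D₁ D₂ hr hns => popescuUpTo_law N D₁ D₂ hr hns,
    fun S₁ S₂ => ⟨classFactor_dvd S₁ S₂, classFactor_eq_one⟩, ?_⟩
  simp only [popescuUpTo_one]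
  obtain ⟨V₀, h1, h2, h3, h4⟩ := exists_V1 F H G
  refine ⟨V₀, fun v hv => (spl_iff_splitsIn v).1 (h1 v hv), ?_, fun D => ?_⟩
  · rw [NumberField.classNumber, ← Nat.card_eq_fintype_card]
    exact h2
  obtain ⟨D₁, hD₁⟩ := exists_data D V₀
  obtain ⟨v, hv⟩ := h4 ⟨D⟩
  have hS : ∀ v, v ∈ D₁.S ↔ v ∈ D.S ∨ v ∈ V₀ := fun v => by rw [hD₁, Finset.mem_union]
  have hr : 0 < D₁.r :=
    pos_of_splits D₁ (v := v) (by rw [hD₁]; exact Finset.mem_union_right _ hv) (h1 v hv)
  have hgen : Generates (F := F) H D₁.S := by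
    rw [← good_iff (G := G), hD₁]
    intro v hv P hP
    refine Subgroup.closure_mono (Set.image_mono ?_) (h3 v hv P hP)
    rintro Q ⟨u, hu, h⟩
    exact ⟨u, Finset.mem_coe.2 (Finset.mem_union_right _ (Finset.mem_coe.1 hu)), h⟩
  have hns : nonSplit H D₁.S = nonSplit H D.S := by
    ext u
    refine ⟨fun hu => ⟨?_, hu.2⟩, fun hu => ⟨(hS u).2 (Or.inl hu.1), hu.2⟩⟩
    rcases (hS u).1 hu.1 with h | h
    · exact h
    · exact absurd ((spl_iff_splitsIn u).1 (h1 u h)) hu.2
  have hdom : ∀ D' : RubinData F H G, nonSplit H D.S ⊆ nonSplit H D'.S →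
      Dominates H D₁.S D'.S := fun D' h => dom_of_generates hgen (by rw [hns]; exact h)
  have hiff : Popescu D₁ ↔
      ∀ D' : RubinData F H G, nonSplit H D.S ⊆ nonSplit H D'.S → Popescu D' :=
    ⟨fun h D' hD' => popescu_dom D₁ D' hr (hdom D' hD') h, fun h => h D₁ (by rw [hns])⟩
  refine ⟨D₁, hS, hr, hiff, fun E => ?_, fun hu => hiff.trans ⟨fun h D' => h D' fun v hv => ?_,
    fun h D' _ => h D'⟩⟩
  · obtain ⟨V, hV1, hV2, hV3⟩ := finite_test D₁ E
    exact ⟨V, hV1, hV2, fun h D' hD' => popescu_of_rubin D' (rubin_dom D₁ D' (hdom D' hD') (hV3 h))⟩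
  · refine ⟨?_, hv.2⟩
    by_contra hc
    exact hv.2 (hu v hv.1 (D'.unramified v hc))

end Pool.Agent.Results.MP_1322f0_nt.OneS
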