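import Pool.Agent.U755.PC.Chr

/-!
# The case `r = 1` over quartic base fields with one complex place

`Qbar` is an algebraic closure of `ℚ` and `ι : Qbar → ℂ` an embedding. All fields are subfields of
`Qbar`, and Galois groups are described by the automorphisms `GQ` of `Qbar`.

* `Fields`: `F` is a totally real field, `K` is a quadratic extension of `F`, complex at `ι` and with
  a real embedding, and `M` is a finite abelian extension of `F` which is real at `ι`. Here `F` is
  quadratic (`NFields`), so the base field `K` is any field of degree four with exactly two real places
  and one complex place (given by `ι`) which contains a quadratic field, and `H = K ⊔ M` is a finite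
  abelian extension of `K`.
* `NFields`: `N` contains `F` and an imaginary quadratic field `k`, is normal and not abelian over
  `ℚ`, abelian over `F` and abelian over `k`, and `M` is contained in `N`; `f ≥ 2` is an integer such that
  `N` is unramified outside `f` and the maximal abelian subfield of `N` is contained in `Cyc f`.
* `𝔣` is a nonzero ideal of `K` divisible by all primes dividing `f`, and `S` is the set of the infinite
  places of `K` and the primes dividing `𝔣`.

**Theorem.** The integrality conjecture of Popescu holds for `H / K`, the set `S` and `r = 1`
(`StarkChar`): there is one unit `ε` of `H`, of absolute value one at all places above the two real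
places of `K`, with `L_S(0, χ) = 0` and `L_S'(0, χ) = - (1 / W) ∑ χ(σ) log |σ ε|_v` for ALL characters
`χ` of the Galois group of `H` over `K`, `v` the complex place given by `ι`, `W` the number of roots
of unity of `H`, such that `H(ε ^ (1/W))` is abelian over `K`.

(If `S` contains another place which splits completely in `H`, then all `L_S'(0, χ)` are zero, and `ε` is
a root of unity.) For `r = 1` the conjecture is Stark's rank one abelian conjecture, see the
problem; it is known for the base fields `ℚ` and imaginary quadratic fields.

The hypotheses are theorems: `StarkImQuad` is Stark's theorem for the abelian extension `N` of the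
imaginary quadratic field `k`; `DeligneRibet` is the theorem of Siegel, Klingen and Deligne and Ribet
for the extension `H` of the real quadratic field `F`; `ArtinFactorization` is the equality
`L_K(s, χ|_K) = L_F(s, χ) L_F(s, χ ψ)`, `ψ` the quadratic character of `K` over `F`. The proof uses the
partial zeta functions (`Pool.Agent.Results.MP_29cb78_nt.QuarticBaseChange`: base change of the unit
from `F` to `K`) and the library of project SR.
-/

set_option autoImplicit false

namespace Pool.Agent.Results.MP_1322f0_nt.RankOneQuarticATR

open NumberField Pool.Agent.U755.ST Pool.Agent.U755.PC
open Pool.Agent.K4H33.SK (Qbar GQ IsTorsionOrder)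
open Pool.Agent.K4H33.SK.Stmt (Sub Ideals principal PrimesOver StarkImQuad)
open Pool.Agent.K4H33.SQ (DeligneRibet)

theorem result (ι : Qbar →+* ℂ) (F K k M N : Sub) [NumberField F] [NumberField K]
    [NumberField k] [NumberField M] [NumberField N] (f : ℕ) (hF : Fields ι F K M)
    (hN : NFields F k N f) (hMN : M ≤ N) (artF : Ideals F → GQ) (artK : Ideals K → GQ)
    (artk : Ideals k → GQ) (hart : NSymbols F K k N f artF artK artk)
    (hA : ArtinFactorization F K M (principal F f) artF artK)
    (hDR : DeligneRibet F (K ⊔ M) (principal F f) artF) (W' : ℕ) (hW' : IsTorsionOrder N W')
    (hS : StarkImQuad ι k N (principal k f) artk W') (W : ℕ)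
    (hW : IsTorsionOrder (K ⊔ M) W) (𝔣 : Ideals K) (h𝔣 : PrimesOver K f 𝔣) :
    StarkChar ι K (K ⊔ M) 𝔣 artK W :=
  stark_char_normal ι F K k M N f hF hN hMN artF artK artk hart hA hDR W' hW' hS W hW 𝔣 h𝔣

end Pool.Agent.Results.MP_1322f0_nt.RankOneQuarticATR
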