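import Pool.Agent.U131.SX.Strong

/-!
# The condition on the root follows from the conjecture for other sets of places

`F` is a number field, `H/F` a finite abelian extension, `ι` gives a real place of `F` which splits
completely in `H`, `w` another real place of `F` and `z` the complex conjugation above `w`; `𝔣` is a
nonzero ideal of `F` divisible by the primes ramified in `H`, `Z σ` are the partial zeta functions
for the places dividing `𝔣` and infinity.  `Hecke` contains known facts: continuation, `Z σ 0 = 0`,
and the double zero of `Z σ + Z (z σ)` at `0` (for `𝔣 ≠ 1`).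

`StarkPos` for `𝔣𝔮` is Q1 for `H/F`, `r = 1` and the places dividing `𝔣𝔮` and infinity, with a unit
whose conjugates over `F` are positive at `ι`, but without the condition on the square root;
`StarkSquare` for `𝔣𝔭` is Q1 with positive conjugates and the strong form of this condition: the
unit is the product of an element of `F` and a square of `H`.
-/

set_option autoImplicit false

namespace Pool.Agent.Results.MP_1322f0_nt.RootCondition

open NumberField Pool.Agent.U131.SX Pool.Agent.U131.SR.Lay
open Pool.Agent.K4H33.SK (Qbar GQ)
open Pool.Agent.K4H33.SK.Stmt (Sub Ideals prd)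

theorem result (ι w : Qbar →+* ℂ) (F H : Sub) [NumberField F] (𝔣 : Ideals F)
    (art : Ideals F → GQ) (z : GQ) (Z : GQ → ℂ → ℂ) (h : Setting ι w F H 𝔣 art z Z)
    (Q : Set (Ideals F)) (hQ : ∀ 𝔮 ∈ Q, Aux F 𝔣 𝔮 ∧ StarkPos ι F H (prd F 𝔣 𝔮) art)
    (hg : Generate F H art Q) (𝔭 : Ideals F) (hp : Aux F 𝔣 𝔭) (hz : Agree H (art 𝔭) z) :
    StarkSquare ι F H (prd F 𝔣 𝔭) art :=
  strong h hQ hg hp hz

end Pool.Agent.Results.MP_1322f0_nt.RootCondition
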